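import Pool.Agent.RRMG.MainG

/-!
# The randomly rotated coordinate-wise median: a new bound in every dimension

Question Q1 asks whether the approximation ratio `α_d` of the randomly rotated coordinate-wise
median is at most `√2 = 1.4142...` in every dimension `d`. For `d ≥ 4` the best bound was the one of
the deterministic coordinate-wise median, `α_d ≤ √(6 √3 - 8) = 1.5467...`, which does not use the
random rotation. We prove `α_d ≤ 61 / 40 = 1.525` for all `d`.

Proof. Let `x_j = p_j - y`, let `X_j = R x_j`, let `M` be the coordinate-wise median of the `X_j` and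
`κ² = E |M|²`; write `⟨F⟩` for the expectation of the sum of `F` over the coordinates. In one
coordinate there are weights `σ_j ∈ [0, 1]` with the sum `N / 2` (`N` is the number of points) such that
`σ_j > 0` only if `M` is between `0` and `X_j`. Therefore for every real `f` the sum over all
ordered pairs `(j, k)` of

  `2 M² (σ_j + σ_k) - f ((X_j M)⁻ + (X_k M)⁻) + 2 f ((X_j M)⁻ σ_k + (X_k M)⁻ σ_j)`

is `2 N² M²`. We take `f = 1/5`. Each summand is at most a combination, with multipliers which
depend on the pair, of the following functions: `M² + min(X_j², X_k²) 1[X_j X_k > 0]`,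
`(X_j X_k)⁻`, `((1 - v) M + v X_j)²`, `X_j M`, `|X_j M|`. The expectations of the functions of
`X_j, X_k` are computed with the rotations of the plane of `x_j` and `x_k`: with the angle `θ` of
`x_j, x_k` they are `⟨(X_j X_k)⁻⟩ = |x_j| |x_k| (sin θ - θ cos θ) / π` and
`⟨min(X_j², X_k²) 1[X_j X_k > 0]⟩ ≤ (|x_j|² + |x_k|²) / 2 · (π - θ - sin θ) / π`. For every pair this leads to
an inequality in the three variables `|x_j| / κ`, `|x_k| / κ` and `θ`, which is concave in the first two
variables and convex in `cos θ`; it is verified with 75 cells (and a simple argument for large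
distances).
-/

set_option autoImplicit false

namespace Pool.Agent.Attic.MP_539dce_lc.AllDimensions

open MeasureTheory Pool.Agent.RRM

/-- **`α_d ≤ 61 / 40 = 1.525` in every dimension.** -/
theorem result {d : ℕ} [MeasurableSpace (SO d)] [BorelSpace (SO d)] (μ : Measure (SO d))
    [IsProbabilityMeasure μ] (hμ : ∀ Q : SO d, μ.map (fun R => Q * R) = μ) {n : ℕ}
    (p : Fin (n + 1) → E d) :
    Integrable (fun R => cost p (rr R p)) μ ∧
      (∀ y : E d, ∫ R, cost p (rr R p) ∂μ ≤ 61 / 40 * cost p y) ∧
      (61 / 40 : ℝ) < √(6 * √3 - 8) := by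
  refine ⟨(Pool.Agent.RRMG.main_all μ hμ p 0).1,
    fun y => (Pool.Agent.RRMG.main_all μ hμ p y).2, ?_⟩
  have h : (1.732 : ℝ) ≤ √3 := Real.le_sqrt_of_sq_le (by norm_num)
  exact Real.lt_sqrt_of_sq_lt (by norm_num at h ⊢; linarith)

end Pool.Agent.Attic.MP_539dce_lc.AllDimensions
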